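import Mathlib
import Pool.Agent.K4H64.Kt.Fin

/-! Weinstein conjecture: closed Reeb orbits are dense in the support of every invariant measure of a
strict contact map which is nonuniformly hyperbolic transversally to the Reeb field (a closing lemma
modulo the Reeb flow, in the spirit of Katok). -/

open scoped Topology ContDiff Manifold
open Set Filter MeasureTheory
open Pool.Agent.H826R2.WStmt Pool.Agent.W671.RStmt Pool.Agent.R774.RootStmt

namespace Pool.Agent.Results.MP_e3ee0c_gt.HyperbolicMeasure

universe u v w

theorem result
    {E : Type u} [NormedAddCommGroup E] [NormedSpace ℝ E] [FiniteDimensional ℝ E]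
    -- a closed manifold `M` with a contact form `α` and its Reeb field `R`
    {M : Type v} [TopologicalSpace M] [ChartedSpace E M] [IsManifold 𝓘(ℝ, E) ∞ M]
    [T2Space M] [CompactSpace M] [MeasurableSpace M] [BorelSpace M]
    (α : M → Cov E) (hα : IsContact α) (R : M → E) (hR : IsReeb α R)
    -- a smooth map `g` with `g* α = α`
    (g : M → M) (hg : IsStrict α g)
    -- an injective immersion in a normed space, used to measure the length of tangent vectors
    {F : Type w} [NormedAddCommGroup F] [NormedSpace ℝ F]
    (e : M → F) (he : IsInjImmersion (E := E) e)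
    -- a finite Borel measure preserved by `g`
    (μ : Measure M) [IsFiniteMeasure μ] (hμ : MeasurePreserving g μ μ)
    -- such that on a set `Λ` of full measure, with measurable functions `C` and `lam < 1`, the map `g`
    -- is nonuniformly hyperbolic on the kernel of `α`
    (Λ : Set M) (hΛ : μ Λᶜ = 0) (π : M → E →L[ℝ] E) (C lam : M → ℝ)
    (hC : Measurable C) (hlam : Measurable lam)
    (hyp : Pool.Agent.K4H64.Kt.NonuniformlyHyperbolicOn α e g Λ π C lam) :
    -- closed Reeb orbits pass through every open set of positive measure
    ∀ U : Set M, IsOpen U → μ U ≠ 0 →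
      ∃ (γ : ℝ → M) (T : ℝ), IsPeriodicOrbit R γ T ∧ γ 0 ∈ U :=
  fun U hU hμU => Pool.Agent.K4H64.Kt.periodic_of_hyperbolic_measure α hα R hR g hg e he μ hμ Λ hΛ
    π C lam hC hlam hyp U hU hμU

end Pool.Agent.Results.MP_e3ee0c_gt.HyperbolicMeasure
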