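import Mathlib
import Pool.Agent.K4H64.We.Fin

/-! Weinstein conjecture: closed Reeb orbits pass through every neighbourhood of a point at which a
strict contact map, not decreasing a quadratic form on the contact planes of an invariant open set,
eventually increases this form strictly. -/

open scoped Topology ContDiff Manifold
open Set Filter
open Pool.Agent.H826R2.WStmt Pool.Agent.W671.RStmt Pool.Agent.R774.RootStmt Pool.Agent.R774.HypStmt

namespace Pool.Agent.Results.MP_e3ee0c_gt.MonotoneSymmetry

universe u v w

theorem result
    {E : Type u} [NormedAddCommGroup E] [NormedSpace ℝ E] [FiniteDimensional ℝ E]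
    -- a closed manifold `M` with a contact form `α` and its Reeb field `R`
    {M : Type v} [TopologicalSpace M] [ChartedSpace E M] [IsManifold 𝓘(ℝ, E) ∞ M]
    [T2Space M] [CompactSpace M]
    (α : M → Cov E) (hα : IsContact α) (R : M → E) (hR : IsReeb α R)
    -- an injective smooth map `g` with `g* α = α`, and an open set `W` with `g W ⊆ W`
    (g : M → M) (hg : IsStrict α g) (hinj : Function.Injective g)
    (W : Set M) (hW : IsOpen W) (hgW : MapsTo g W W)
    -- a field of quadratic forms `Q x v = B x (De v, De v)` of any signature, continuous on `W`,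
    -- where `e` is a smooth map in a normed space (for instance an embedding),
    {F : Type w} [NormedAddCommGroup F] [NormedSpace ℝ F]
    (e : M → F) (he : ContMDiff 𝓘(ℝ, E) 𝓘(ℝ, F) ∞ e)
    (B : M → F →L[ℝ] F →L[ℝ] ℝ) (hB : ContinuousOn B W)
    -- which does not decrease under `Dg` on the kernel of `α`, at the points of `W`
    (mono : ∀ y ∈ W, ∀ v : E, ev (α y) v = 0 →
      quad e B y v ≤ quad e B (g y) (D (E := E) (E' := E) g y v))
    -- and, at one point `x` of `W`, is strictly increased on each nonzero vector of the kernel
    -- by some iterate of `g` (depending on the vector)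
    (x : M) (hx : x ∈ W)
    (hinc : ∀ v : E, ev (α x) v = 0 → v ≠ 0 → ∃ n : ℕ,
      quad e B x v < quad e B (g^[n] x) (D (E := E) (E' := E) (g^[n]) x v)) :
    -- periodic orbits of the Reeb field pass through every neighbourhood of `x`
    ∀ U ∈ 𝓝 x, ∃ (γ : ℝ → M) (T : ℝ), IsPeriodicOrbit R γ T ∧ γ 0 ∈ U :=
  fun U hU => Pool.Agent.K4H64.We.periodic_of_monotone α hα R hR g hg hinj W hW hgW e he B hB mono
    x hx hinc U hU

end Pool.Agent.Results.MP_e3ee0c_gt.MonotoneSymmetry
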