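import Mathlib
import Pool.Agent.K4H32.W.Main

/-! Weinstein conjecture: closed Reeb orbits for contact forms with a local symmetry by a semisimple
Lie group with finite centre (compact or not) whose momentum somewhere has a non-real eigenvalue. -/

open scoped Topology ContDiff Manifold
open Module Pool.Agent.H826R2.WStmt Pool.Agent.K4H32.WS

namespace Pool.Agent.Results.MP_e3ee0c_gt.SemisimpleLocalSymmetry

universe u v w x y

theorem result
    {E : Type u} [NormedAddCommGroup E] [NormedSpace ℝ E] [FiniteDimensional ℝ E]
    -- a closed manifold `M` with a contact form `α` and its Reeb field `R`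
    {M : Type v} [TopologicalSpace M] [ChartedSpace E M] [IsManifold 𝓘(ℝ, E) ∞ M]
    [T2Space M] [CompactSpace M]
    (α : M → Cov E) (hα : IsContact α) (R : M → E) (hR : IsReeb α R)
    -- a regular covering `q : P → M` with deck group `Γ`
    {P : Type w} [TopologicalSpace P] [ChartedSpace E P] [IsManifold 𝓘(ℝ, E) ∞ P]
    [T2Space P] [SigmaCompactSpace P]
    {Γ : Type x} [Group Γ] [MulAction Γ P] (q : P → M) (hq : IsQuotientMap E q Γ)
    -- a finite-dimensional real Lie algebra with nondegenerate Killing form (semisimple) and a basis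
    {𝔤 : Type y} [LieRing 𝔤] [LieAlgebra ℝ 𝔤] [FiniteDimensional ℝ 𝔤] [LieAlgebra.IsKilling ℝ 𝔤]
    {n : ℕ} (b : Basis (Fin n) ℝ 𝔤)
    -- a smooth action on `P`, preserving the lifted contact form, of a connected Lie group with Lie
    -- algebra `𝔤` and finite centre, normalised by the deck group
    (A : GroupSymmetry (pull (E := E) q α) b) (hA : A.Normalised Γ)
    -- at some point the adjoint operator of the momentum has a non-real eigenvalue
    (hne : ∃ (x : P) (a : 𝔤), A.IsMomentum x a ∧ HasNonrealEigenvalue a) :
    -- the Reeb flow of `α` on `M` has a periodic orbit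
    ∃ (c : ℝ → M) (T : ℝ), IsPeriodicOrbit R c T := by
  obtain ⟨x₁, a₁, h1, h2⟩ := hne
  exact Pool.Agent.K4H32.W.exists_periodic_semisimple α hα R hR q hq A hA h1 h2

end Pool.Agent.Results.MP_e3ee0c_gt.SemisimpleLocalSymmetry
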